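import Pool.Agent.H40AB.Fin

/-!
# The Tauberian averages of arbitrary varieties over abelian number fields

`K` is a number field and `V` a smooth projective variety over `K`.  If the number field `M ⊇ K` is
disjoint over `K` from the field of definition of `NS(V)`, then `NS(V / M)` and `NS(V / K)` have the same
rank, and the averages of the question for the base change of `V` to `M` and for `V` should have the same
limit.  The theorem compares the averages over `K` and over the subfields `M ⊇ K` of the fields `K(ζ_f)`;
for `K = ℚ` these are the abelian number fields.

For every `ε > 0` and `C` there are `η > 0` and `A` such that for all large `F` all subfields `M` of the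
fields `K(ζ_f)`, `f ≤ F`, which do not contain one of at most `F ^ ε` exceptional fields have this property:
for the first `F ^ η` varieties `V` of any given sequence and for all `T` with
`(log F) ^ A ≤ T ≤ F ^ C` the averages up to `T` over `M` and over `K` differ by at most
`N [M : K] T ^ (-η)`, `N` the Betti number of `V`.

For `K = ℚ` and cyclic fields `M` of a given prime degree the exceptional fields are just fields `M`: the
averages are close for all cyclic fields of this degree and of conductor at most `F`, of which there are
more than `c F`, with at most `F ^ ε` exceptions.  Nothing is assumed on `V`.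

The definitions are in `Pool.Agent.H40AB.Defs` (`InCyclotomic`), `Pool.Agent.H40SY.Defs` (`VarietyData`,
`Close`), `Pool.Agent.W353.SP.NDefs` (`IsTrace`, `average`) and `Pool.Agent.W353.EF.Defs`.

Method: the average over `M` is a combination of the sums over the primes of the traces of Frobenius
twisted by the Dirichlet characters of `M`; the number of the primitive characters of conductor at most `F`
with a large sum is estimated by the multiplicative large sieve (helper112) for high powers of the sums
over the primes up to `T = t ^ k`, where `k` is fixed (as in helper386's work on Artin's conjecture).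
-/

set_option autoImplicit false

namespace Pool.Agent.Results.MP_4589ac_nt.AbelianFields

open NumberField Pool.Agent.H40SY Pool.Agent.H40AB

/-- **The Tauberian averages over abelian fields.**  For every number field `K`, `ε > 0` and `C` there are
`η > 0`, `A` and `F₀` such that for all sequences `V` of varieties over `K` and all `F ≥ F₀` there is a set
`𝓔` of at most `F ^ ε` fields `L ⊋ K` with this property: for all number fields `M ⊇ K` which are contained
in `K(ζ_f)` for some `f ≤ F` and do not contain a field of `𝓔`, for all `T` with
`(log F) ^ A ≤ T ≤ F ^ C` and for all `j ≤ F ^ η` the averages up to `T` for `V j` over `M` and over `K`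
differ by at most `N [M : K] T ^ (-η)`. -/
theorem result (K : Type) [Field K] [NumberField K] (ε : ℝ) (hε : 0 < ε) (C : ℕ) :
    ∃ (η : ℝ) (A F₀ : ℕ), 0 < η ∧ ∀ (V : ℕ → VarietyData K) (F : ℕ), F₀ ≤ F →
      ∃ 𝓔 : Finset (IntermediateField K (AlgebraicClosure K)), (𝓔.card : ℝ) ≤ (F : ℝ) ^ ε ∧ ⊥ ∉ 𝓔 ∧
        ∀ (M : IntermediateField K (AlgebraicClosure K)) [NumberField M], InCyclotomic F M →
          (∀ L ∈ 𝓔, ¬ L ≤ M) → ∀ T j : ℕ, Real.log F ^ A ≤ T → T ≤ F ^ C → (j : ℝ) ≤ (F : ℝ) ^ η →
            Close (V j) M T (Module.finrank K M * (T : ℝ) ^ (-η)) :=
  main K ε hε C

end Pool.Agent.Results.MP_4589ac_nt.AbelianFields
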