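import Pool.Agent.H25TT.Main
import Pool.Agent.H25TT.Pnt

/-!
# The Tauberian Tate conjecture for products of powers of almost all cyclic covers of projective spaces

For `i < r` let `V_i` be the cyclic cover `w ^ {m_i} = F_i(x)` of `P ^ {n_i}` over `ℚ`, `F_i` a form of degree `δ_i` with integer coefficients,
`n_i ≥ 1`, `m_i ≥ 2`, `m_i ∣ δ_i`, `δ_i ≥ 3`. The `V_i` with `n_i = 1` are the superelliptic curves (all elliptic curves with a rational divisor of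
degree `2`, hyperelliptic, cyclic trigonal curves, …), the `V_i` with `n_i = 2` are surfaces, for instance K3 surfaces for `(m_i, δ_i) = (2, 6)`, `(4, 4)`.
Let `V` be the product of `k_i` copies of `V_i`, `i < r`. By Künneth's formula the trace `b_p(V)` of the Frobenius on `H ^ 2(V)` at a prime of good
reduction is

`(∑ k_i) p + ∑_{n_i = 2} k_i a_i + ∑_{n_i = 1} (k_i choose 2) a_i ^ 2 + ∑_{i < j, n_i = n_j = 1} k_i k_j a_i a_j`, `a_i = #V_i(F_p) - #P ^ {n_i}(F_p)`.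

For almost all `F` the rank of `NS(V / ℚ)` is `∑ k_i + ∑_{n_i = 1} (k_i choose 2) (τ(m_i) - 1)`: the ring of endomorphisms of the Jacobian of
`w ^ m = F(x, y)` over `ℚ` has rank `τ(m) - 1`, one for each divisor `d > 1` of `m` (over the algebraic closure it contains `ℤ[ζ_d]`
for all these `d`). So there are factors whose correspondences are not explained by the product structure, and the rank is larger than for products of
different hypersurfaces.

The theorem: for almost all `F` the Tauberian averages `Y⁻¹ ∑_{p ≤ Y} b_p(V) log p / p` over the primes of good reduction are close to this number, and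
are equal to the corresponding average of `∑ k_i + ∑_{n_i = 1} (k_i choose 2) (gcd (m_i, p - 1) - 1)` up to `Y ^ (-1 / 2 + ε)`, for `Y` up to a power of
the size of the coefficients; also over the primes in the members of any finite system of sets of primes, for instance residue classes.

Proof: the traces `a_i / √p` (and `a_i / p` for surfaces) have, over all forms over the field with `p` elements, the moments of order at most `4` of the
normal law with the variance `gcd (m_i, p - 1) - 1`, up to `O(p ^ (-1 / 2))`, as at most `δ_i + 1 ≥ 4` points impose independent conditions on the forms;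
the law of large numbers for local functions over all intervals (`Pool.Agent.Q285.HS`); summation by parts; the prime number theorem in arithmetic
progressions.
-/

set_option autoImplicit false

namespace Pool.Agent.Results.MP_4589ac_nt.ProductsOfCyclicCovers

open Finset MvPolynomial Filter Topology
open Pool.Agent.Y722.HS (Mon form IsSmooth)
open scoped LinearAlgebra.Projectivization

/-- The number of the points over the field with `p` elements of the cyclic cover `w ^ m = F(x)` of `P ^ n`: the pairs of a point `[x]` and a `w` with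
`w ^ m = F(x)`. (`x` is a representative of the point; if `m` divides the degree of the form `F` then the number does not depend on it.) -/
noncomputable def coverPoints {n : ℕ} (m : ℕ) (F : MvPolynomial (Fin (n + 1)) ℤ) (p : ℕ) : ℕ :=
  open scoped Classical in
  if h : p.Prime then
    haveI : Fact p.Prime := ⟨h⟩
    Nat.card {x : ℙ (ZMod p) (Fin (n + 1) → ZMod p) × ZMod p // x.2 ^ m = aeval x.1.rep F}
  else 0

/-- `#V(F_p) - #P ^ n(F_p)`: minus the trace of Frobenius on `H ^ 1` for curves, the trace on the primitive part of `H ^ 2` for surfaces. -/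
noncomputable def excess {n : ℕ} (m : ℕ) (F : MvPolynomial (Fin (n + 1)) ℤ) (p : ℕ) : ℝ :=
  (coverPoints m F p : ℝ) - ∑ j ∈ range (n + 1), (p : ℝ) ^ j

section
variable {r : ℕ} (n m δ k : Fin r → ℕ)

/-- The coefficients of the forms `F_i` of degree `δ i` in `n i + 1` variables. -/
abbrev Coeff : Type := Σ i : Fin r, Mon (n i) (δ i)

/-- The form `F_i`. -/
noncomputable def F (t : Coeff n δ → ℤ) (i : Fin r) : MvPolynomial (Fin (n i + 1)) ℤ := form fun ν => t ⟨i, ν⟩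

/-- The branch divisors `F_i = 0` are smooth modulo `p`, and `p` does not divide the degrees `m_i` of the covers: a prime of good reduction. -/
def Good (t : Coeff n δ → ℤ) (p : ℕ) : Prop :=
  ∀ i, ¬ p ∣ m i ∧ ∀ _ : Fact p.Prime, IsSmooth (map (algebraMap (ZMod p) (AlgebraicClosure (ZMod p))) (map (Int.castRingHom (ZMod p)) (F n δ t i)))

/-- The trace `b_p(V)` of the Frobenius on `H ^ 2` of the product `V` of the `V_i ^ {k_i}`. -/
noncomputable def trace (t : Coeff n δ → ℤ) (p : ℕ) : ℝ :=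
  (∑ i, (k i : ℝ)) * p + (∑ i with n i = 2, k i * excess (m i) (F n δ t i) p) + (∑ i with n i = 1, ((k i).choose 2 : ℝ) * excess (m i) (F n δ t i) p ^ 2) +
    ∑ i, ∑ j with i < j ∧ n i = 1 ∧ n j = 1, (k i : ℝ) * k j * (excess (m i) (F n δ t i) p * excess (m j) (F n δ t j) p)

open Classical in
/-- The sum of `b_p(V) log p / p` over the primes `p ≤ Y` of good reduction in `S`. -/
noncomputable def tateSum (t : Coeff n δ → ℤ) (S : Set ℕ) (Y : ℕ) : ℝ :=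
  ∑ p ∈ Ioc 0 Y with p.Prime ∧ p ∈ S ∧ Good n m δ t p, trace n m δ k t p / p * Real.log p

/-- The expected mean of `b_p(V) / p` at the prime `p`. -/
noncomputable def expected (p : ℕ) : ℝ := ∑ i, (k i : ℝ) + ∑ i with n i = 1, ((k i).choose 2 : ℝ) * ((Nat.gcd (m i) (p - 1) : ℝ) - 1)

open Classical in
/-- The expected value of the sum. -/
noncomputable def mainSum (S : Set ℕ) (Y : ℕ) : ℝ := ∑ p ∈ Ioc 0 Y with p.Prime ∧ p ∈ S, expected n m k p * Real.log p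

/-- The number `∑ k_i + ∑_{n_i = 1} (k_i choose 2) (τ(m_i) - 1)`. -/
def rank : ℕ := ∑ i, k i + ∑ i with n i = 1, (k i).choose 2 * ((m i).divisors.erase 1).card

/-- The integer vectors `t` with `N i ≤ t i < N i + L i`. -/
noncomputable def box {κ : Type} [Fintype κ] [DecidableEq κ] (N : κ → ℤ) (L : κ → ℕ) : Finset (κ → ℤ) :=
  Fintype.piFinset fun i => Ico (N i) (N i + L i)

end

section
variable {r : ℕ} (n m δ k : Fin r → ℕ)

lemma form_map {a b : ℕ} (t : Mon a b → ℤ) (p : ℕ) : map (Int.castRingHom (ZMod p)) (form t) = form fun m => (t m : ZMod p) := by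
  unfold Pool.Agent.Y722.HS.form
  simp [map_sum, map_prod]

lemma good_iff (t : Coeff n δ → ℤ) (p : ℕ) : Good n m δ t p ↔ (fun x => (t x : ZMod p)) ∉ Pool.Agent.H25TT.BB n m δ p := by
  show (∀ i, ¬ p ∣ m i ∧ _) ↔ ¬ ∃ i, (p ∣ m i ∨ ¬ _)
  push Not
  refine forall_congr' fun i => and_congr_right fun _ => forall_congr' fun hF => ?_
  unfold F
  have h1 := form_map (fun ν => t ⟨i, ν⟩) p
  have h2 : map (algebraMap (ZMod p) (AlgebraicClosure (ZMod p))) (map (Int.castRingHom (ZMod p)) (form fun ν => t ⟨i, ν⟩)) =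
      map (algebraMap (ZMod p) (AlgebraicClosure (ZMod p))) (form fun m => (t ⟨i, m⟩ : ZMod p)) := congrArg _ h1
  exact iff_of_eq (congrArg IsSmooth h2)

lemma excess_eq (hm : ∀ i, 2 ≤ m i) (t : Coeff n δ → ℤ) (i : Fin r) (p : ℕ) (hp : p.Prime) : excess (m i) (F n δ t i) p =
    Pool.Agent.H25TT.ss (m i) p * Real.sqrt p ^ n i * Pool.Agent.H25TT.ZZ (n i) (m i) (δ i) p (fun x => (t ⟨i, x⟩ : ZMod p)) := by
  have : Fact p.Prime := ⟨hp⟩
  have h1 := Pool.Agent.H25TT.ZZ_trace (n i) (m i) (δ i) p (hm i) (fun ν => t ⟨i, ν⟩)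
  have h2 : (Nat.card (ℙ (ZMod p) (Fin (n i + 1) → ZMod p)) : ℝ) = ∑ j ∈ range (n i + 1), (p : ℝ) ^ j := by
    have h3 := Q285HS.points_empty (n := n i) p hp
    have h4 : Nat.card (ℙ (ZMod p) (Fin (n i + 1) → ZMod p)) = Q285HS.points (n := n i) p ∅ := by
      unfold Q285HS.points
      rw [dif_pos hp]
      refine Nat.card_congr ((Equiv.subtypeUnivEquiv fun x => ?_).symm)
      simp
    rw [h4, h3]
    push_cast
    rfl
  unfold excess coverPoints F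
  rw [dif_pos hp, ← h2]
  exact h1

lemma trace_eq (hm : ∀ i, 2 ≤ m i) (t : Coeff n δ → ℤ) (p : ℕ) (hp : p.Prime) :
    trace n m δ k t p / p = expected n m k p + Pool.Agent.H25TT.GG n m δ k p (fun x => (t x : ZMod p)) := by
  have hp0 : (0 : ℝ) < p := by exact_mod_cast hp.pos
  have hss : Real.sqrt p * Real.sqrt p = p := Real.mul_self_sqrt hp0.le
  obtain ⟨z, hz⟩ : ∃ z : Fin r → ℝ, z = fun i => Pool.Agent.H25TT.ZZ (n i) (m i) (δ i) p (fun x => (t ⟨i, x⟩ : ZMod p)) := ⟨_, rfl⟩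
  obtain ⟨s, hs⟩ : ∃ s : Fin r → ℝ, s = fun i => Pool.Agent.H25TT.ss (m i) p := ⟨_, rfl⟩
  have hx : ∀ i, excess (m i) (F n δ t i) p = s i * Real.sqrt p ^ n i * z i := fun i => by
    rw [excess_eq n m δ hm t i p hp, hz, hs]
  have h1 : (∑ i with n i = 2, (k i : ℝ) * excess (m i) (F n δ t i) p) = p * ∑ i, (if n i = 2 then (k i : ℝ) * s i else 0) * z i := by
    rw [sum_filter, mul_sum]
    refine sum_congr rfl fun i _ => ?_
    split_ifs with h
    · rw [hx i, h, pow_two, hss]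
      ring
    · ring
  have h2 : (∑ i with n i = 1, ((k i).choose 2 : ℝ) * excess (m i) (F n δ t i) p ^ 2) =
      p * ∑ i, (if n i = 1 then ((k i).choose 2 : ℝ) * s i ^ 2 else 0) * z i ^ 2 := by
    rw [sum_filter, mul_sum]
    refine sum_congr rfl fun i _ => ?_
    split_ifs with h
    · rw [hx i, h, pow_one]
      calc ((k i).choose 2 : ℝ) * (s i * Real.sqrt p * z i) ^ 2 = ((k i).choose 2 : ℝ) * s i ^ 2 * z i ^ 2 * (Real.sqrt p * Real.sqrt p) := by ring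
        _ = _ := by rw [hss]; ring
    · ring
  have h3 : (∑ i, ∑ j with i < j ∧ n i = 1 ∧ n j = 1, (k i : ℝ) * k j * (excess (m i) (F n δ t i) p * excess (m j) (F n δ t j) p)) =
      p * ∑ i, ∑ j, (if i < j ∧ n i = 1 ∧ n j = 1 then (k i : ℝ) * k j * s i * s j else 0) * (z i * z j) := by
    rw [mul_sum]
    refine sum_congr rfl fun i _ => ?_
    rw [sum_filter, mul_sum]
    refine sum_congr rfl fun j _ => ?_
    split_ifs with h
    · rw [hx i, hx j, h.2.1, h.2.2, pow_one]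
      calc (k i : ℝ) * k j * (s i * Real.sqrt p * z i * (s j * Real.sqrt p * z j)) = (k i : ℝ) * k j * s i * s j * (z i * z j) * (Real.sqrt p * Real.sqrt p) := by
            ring
        _ = _ := by rw [hss]; ring
    · ring
  have h4 : Pool.Agent.H25TT.GG n m δ k p (fun x => (t x : ZMod p)) =
      (∑ i, (if n i = 2 then (k i : ℝ) * s i else 0) * z i) + (∑ i, (if n i = 1 then ((k i).choose 2 : ℝ) * s i ^ 2 else 0) * (z i ^ 2 - 1)) +
      ∑ i, ∑ j, (if i < j ∧ n i = 1 ∧ n j = 1 then (k i : ℝ) * k j * s i * s j else 0) * (z i * z j) := by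
    rw [hz, hs]
    rfl
  have h5 : expected n m k p = ∑ i, (k i : ℝ) + ∑ i, (if n i = 1 then ((k i).choose 2 : ℝ) * s i ^ 2 else 0) := by
    unfold expected
    rw [sum_filter]
    congr 1
    refine sum_congr rfl fun i _ => ?_
    split_ifs
    · rw [hs, Pool.Agent.H25TT.ss_sq (m i) p (by have := hm i; omega)]
    · rfl
  have h6 : ∑ i, (if n i = 1 then ((k i).choose 2 : ℝ) * s i ^ 2 else 0) * (z i ^ 2 - 1) =
      ∑ i, (if n i = 1 then ((k i).choose 2 : ℝ) * s i ^ 2 else 0) * z i ^ 2 - ∑ i, (if n i = 1 then ((k i).choose 2 : ℝ) * s i ^ 2 else 0) := by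
    rw [← sum_sub_distrib]
    exact sum_congr rfl fun i _ => by ring
  unfold trace
  rw [h1, h2, h3, h4, h5, h6]
  field_simp
  ring

lemma expected_abs (hm : ∀ i, 2 ≤ m i) : ∃ M : ℝ, 1 ≤ M ∧ ∀ p, |-expected n m k p| ≤ M := by
  refine ⟨1 + ∑ i, (k i : ℝ) + ∑ i with n i = 1, ((k i).choose 2 : ℝ) * (m i : ℝ), ?_, fun p => ?_⟩
  · have h1 : (0 : ℝ) ≤ ∑ i, (k i : ℝ) := sum_nonneg fun _ _ => Nat.cast_nonneg _
    have h2 : (0 : ℝ) ≤ ∑ i with n i = 1, ((k i).choose 2 : ℝ) * (m i : ℝ) := sum_nonneg fun _ _ => by positivity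
    linarith
  · have h0 : ∀ i, (0 : ℝ) ≤ (Nat.gcd (m i) (p - 1) : ℝ) - 1 ∧ (Nat.gcd (m i) (p - 1) : ℝ) - 1 ≤ m i := by
      intro i
      have h1 : (1 : ℝ) ≤ (Nat.gcd (m i) (p - 1) : ℝ) := by
        exact_mod_cast Nat.gcd_pos_of_pos_left _ (by have := hm i; omega)
      have h2 : (Nat.gcd (m i) (p - 1) : ℝ) ≤ m i := by
        exact_mod_cast Nat.gcd_le_left _ (by have := hm i; omega)
      constructor <;> linarith
    have h1 : 0 ≤ expected n m k p := by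
      unfold expected
      refine add_nonneg (sum_nonneg fun _ _ => Nat.cast_nonneg _) (sum_nonneg fun i _ => mul_nonneg (Nat.cast_nonneg _) (h0 i).1)
    rw [abs_neg, abs_of_nonneg h1]
    unfold expected
    have h2 : ∑ i with n i = 1, ((k i).choose 2 : ℝ) * ((Nat.gcd (m i) (p - 1) : ℝ) - 1) ≤ ∑ i with n i = 1, ((k i).choose 2 : ℝ) * (m i : ℝ) :=
      sum_le_sum fun i _ => mul_le_mul_of_nonneg_left (h0 i).2 (Nat.cast_nonneg _)
    linarith

/-- **The law with a power saving.** -/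
theorem law (hn : ∀ i, 1 ≤ n i) (hm : ∀ i, 2 ≤ m i) (hδ : ∀ i, 3 ≤ δ i) (ε : ℝ) (hε : 0 < ε) (hε1 : ε ≤ 1) :
    ∃ κ₀ : ℝ, 0 < κ₀ ∧ ∃ C : ℝ, 1 ≤ C ∧ ∀ (𝒮 : Finset (Set ℕ)) (N : Coeff n δ → ℤ) (L : Coeff n δ → ℕ) (T : ℝ), 0 < T → (∀ x, T ≤ L x) →
      ∀ X₀ : ℕ, 1 ≤ X₀ →
      (({t ∈ box N L | ¬ ∀ S ∈ 𝒮, ∀ Y : ℕ, X₀ ≤ Y → (Y : ℝ) ≤ T ^ κ₀ →
        |tateSum n m δ k t S Y - mainSum n m k S Y| ≤ C * (Y : ℝ) ^ (1 / 2 + ε)} : Set (Coeff n δ → ℤ)).ncard : ℝ) ≤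
        C * 𝒮.card * (X₀ : ℝ) ^ (-(ε / 2)) * ∏ x, (L x : ℝ) := by
  classical
  obtain ⟨q₀, C₀, hB⟩ := Pool.Agent.H25TT.few_BB n m δ hm hδ
  obtain ⟨M, hM, hexp⟩ := expected_abs n m k hm
  have hG := ((Pool.Agent.H25TT.small_GG n m δ k hn hm hδ).good _ hB).add ((Pool.Agent.H25TT.small_bad _ hB).smul (fun p => -expected n m k p) M hM hexp)
  obtain ⟨κ₀, hκ₀, C, hC, h⟩ := Pool.Agent.H25TT.small_law hG ε hε hε1
  refine ⟨κ₀, hκ₀, C, hC, fun 𝒮 N L T hT hTL X₀ hX₀ => ?_⟩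
  obtain ⟨E, hE1, hE2⟩ := h 𝒮 N L T hT hTL X₀ hX₀
  refine le_trans ?_ hE1
  rw [← Set.ncard_coe_finset]
  refine Nat.cast_le.2 (Set.ncard_le_ncard ?_ (Finset.finite_toSet _))
  rintro t ⟨ht, hnt⟩
  by_contra hno
  refine hnt fun S hS Y hY hYT => ?_
  have h1 := hE2 t ht hno S hS Y hY hYT
  refine le_trans (le_of_eq ?_) h1
  congr 1
  unfold tateSum mainSum Q285HS.IV
  rw [filter_filter, sum_filter, sum_filter, sum_filter, ← sum_sub_distrib]
  refine sum_congr rfl fun p _ => ?_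
  by_cases hp : p.Prime
  · by_cases hpS : p ∈ S
    · by_cases hg : Good n m δ t p
      · have hb := (good_iff n m δ t p).1 hg
        rw [if_pos ⟨hp, hpS, hg⟩, if_pos ⟨hp, hpS⟩, if_pos ⟨hp, hpS⟩, trace_eq n m δ k hm t p hp, if_neg hb, if_neg hb]
        ring
      · have hb : (fun x => (t x : ZMod p)) ∈ Pool.Agent.H25TT.BB n m δ p := by
          by_contra hb
          exact hg ((good_iff n m δ t p).2 hb)
        rw [if_neg fun h' => hg h'.2.2, if_pos ⟨hp, hpS⟩, if_pos ⟨hp, hpS⟩, if_pos hb, if_pos hb]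
        ring
    · rw [if_neg fun h' => hpS h'.2.1, if_neg fun h' => hpS h'.2, if_neg fun h' => hpS h'.2, sub_zero]
  · rw [if_neg fun h' => hp h'.1, if_neg fun h' => hp h'.1, if_neg fun h' => hp h'.1, sub_zero]

/-- **The mean of the expected values is the rank.** -/
theorem mean (hm : ∀ i, 2 ≤ m i) : Tendsto (fun Y : ℕ => (Y : ℝ)⁻¹ * mainSum n m k Set.univ Y) atTop (𝓝 (rank n m k : ℝ)) := by
  classical
  have hθ := Pool.Agent.H25TT.gcd_mean 1 le_rfl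
  simp only [Nat.gcd_one_left, Nat.cast_one, one_mul, Nat.divisors_one, card_singleton] at hθ
  have h1 : ∀ i, Tendsto (fun Y : ℕ => (if n i = 1 then ((k i).choose 2 : ℝ) else 0) *
      ((Y : ℝ)⁻¹ * ∑ p ∈ (Ioc 0 Y).filter Nat.Prime, (Nat.gcd (m i) (p - 1) : ℝ) * Real.log p -
        (Y : ℝ)⁻¹ * ∑ p ∈ (Ioc 0 Y).filter Nat.Prime, Real.log p)) atTop
      (𝓝 ((if n i = 1 then ((k i).choose 2 : ℝ) else 0) * (((m i).divisors.card : ℝ) - 1))) := fun i =>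
    ((Pool.Agent.H25TT.gcd_mean (m i) (by have := hm i; omega)).sub hθ).const_mul _
  have h2 := (hθ.const_mul (∑ i, (k i : ℝ))).add (tendsto_finsetSum (univ : Finset (Fin r)) fun i _ => h1 i)
  have h3 : (rank n m k : ℝ) = (∑ i, (k i : ℝ)) * 1 + ∑ i, (if n i = 1 then ((k i).choose 2 : ℝ) else 0) * (((m i).divisors.card : ℝ) - 1) := by
    unfold rank
    push_cast
    rw [mul_one, sum_filter]
    congr 1
    refine sum_congr rfl fun i _ => ?_
    have h4 : 1 ∈ (m i).divisors := Nat.one_mem_divisors.2 (by have := hm i; omega)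
    split_ifs
    · rw [card_erase_of_mem h4, Nat.cast_sub (card_pos.2 ⟨1, h4⟩), Nat.cast_one]
    · rw [zero_mul]
  rw [h3]
  refine h2.congr fun Y => ?_
  have h5 : mainSum n m k Set.univ Y = ∑ p ∈ (Ioc 0 Y).filter Nat.Prime, expected n m k p * Real.log p := by
    unfold mainSum
    refine sum_congr ?_ fun _ _ => rfl
    ext p
    simp
  have h6 : ∀ p ∈ (Ioc 0 Y).filter Nat.Prime, expected n m k p * Real.log p = (∑ i, (k i : ℝ)) * Real.log p +
      ∑ i, (if n i = 1 then ((k i).choose 2 : ℝ) else 0) * ((Nat.gcd (m i) (p - 1) : ℝ) * Real.log p - Real.log p) := by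
    intro p _
    unfold expected
    rw [add_mul, sum_filter]
    congr 1
    rw [sum_mul]
    refine sum_congr rfl fun i _ => ?_
    split_ifs <;> ring
  rw [h5, sum_congr rfl h6, sum_add_distrib, ← mul_sum, sum_comm]
  have h7 : ∀ i ∈ (univ : Finset (Fin r)), ∑ p ∈ (Ioc 0 Y).filter Nat.Prime, (if n i = 1 then ((k i).choose 2 : ℝ) else 0) * ((Nat.gcd (m i) (p - 1) : ℝ) * Real.log p - Real.log p) =
      (if n i = 1 then ((k i).choose 2 : ℝ) else 0) * (∑ p ∈ (Ioc 0 Y).filter Nat.Prime, (Nat.gcd (m i) (p - 1) : ℝ) * Real.log p -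
        ∑ p ∈ (Ioc 0 Y).filter Nat.Prime, Real.log p) := by
    intro i _
    rw [← mul_sum, sum_sub_distrib]
  rw [sum_congr rfl h7]
  obtain ⟨Θ, hΘ⟩ : ∃ Θ : ℝ, Θ = ∑ p ∈ (Ioc 0 Y).filter Nat.Prime, Real.log p := ⟨_, rfl⟩
  obtain ⟨G, hG⟩ : ∃ G : Fin r → ℝ, ∀ i, G i = ∑ p ∈ (Ioc 0 Y).filter Nat.Prime, (Nat.gcd (m i) (p - 1) : ℝ) * Real.log p := ⟨_, fun _ => rfl⟩
  simp only [← hΘ, ← hG]
  have h8 : ∑ i, (if n i = 1 then ((k i).choose 2 : ℝ) else 0) * ((Y : ℝ)⁻¹ * G i - (Y : ℝ)⁻¹ * Θ) =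
      (Y : ℝ)⁻¹ * ∑ i, (if n i = 1 then ((k i).choose 2 : ℝ) else 0) * (G i - Θ) := by
    rw [mul_sum]
    exact sum_congr rfl fun i _ => by ring
  rw [h8]
  ring

lemma card_box {κ : Type} [Fintype κ] [DecidableEq κ] (N : κ → ℤ) (L : κ → ℕ) : ((box N L).card : ℝ) = ∏ i, (L i : ℝ) := by
  unfold box
  rw [Fintype.card_piFinset, Nat.cast_prod]
  refine prod_congr rfl fun i _ => ?_
  rw [Int.card_Ico]
  congr 1
  omega

/-- **The Tauberian averages are close to the rank.** -/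
theorem averages (hn : ∀ i, 1 ≤ n i) (hm : ∀ i, 2 ≤ m i) (hδ : ∀ i, 3 ≤ δ i) (η : ℝ) (hη : 0 < η) :
    ∃ κ₀ : ℝ, 0 < κ₀ ∧ ∃ C : ℝ, 1 ≤ C ∧ ∀ (N : Coeff n δ → ℤ) (L : Coeff n δ → ℕ) (T : ℝ), 0 < T → (∀ x, T ≤ L x) →
      ∀ X₀ : ℕ, 1 ≤ X₀ →
      (({t ∈ box N L | ¬ ∀ Y : ℕ, X₀ ≤ Y → (Y : ℝ) ≤ T ^ κ₀ →
        |(Y : ℝ)⁻¹ * tateSum n m δ k t Set.univ Y - rank n m k| ≤ η} : Set (Coeff n δ → ℤ)).ncard : ℝ) ≤
        C * (X₀ : ℝ) ^ (-(1 / 8) : ℝ) * ∏ x, (L x : ℝ) := by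
  classical
  obtain ⟨κ₀, hκ₀, C, hC, h⟩ := law n m δ k hn hm hδ (1 / 4) (by norm_num) (by norm_num)
  have hm1 := (Metric.tendsto_atTop.1 (mean n m k hm)) (η / 2) (by positivity)
  obtain ⟨Y₁, hY₁⟩ := hm1
  obtain ⟨Y₂, hY₂⟩ := exists_nat_ge ((2 * C / η) ^ (4 : ℕ))
  refine ⟨κ₀, hκ₀, C + (Y₁ + Y₂ + 1 : ℕ), by linarith [Nat.cast_nonneg (α := ℝ) (Y₁ + Y₂ + 1)], fun N L T hT hTL X₀ hX₀ => ?_⟩
  have hX1 : (1 : ℝ) ≤ X₀ := by exact_mod_cast hX₀
  have hP : 0 ≤ ∏ x, (L x : ℝ) := prod_nonneg fun _ _ => Nat.cast_nonneg _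
  rcases Nat.lt_or_ge X₀ (Y₁ + Y₂ + 1) with hlt | hge
  · have h1 : (({t ∈ box N L | ¬ ∀ Y : ℕ, X₀ ≤ Y → (Y : ℝ) ≤ T ^ κ₀ →
        |(Y : ℝ)⁻¹ * tateSum n m δ k t Set.univ Y - rank n m k| ≤ η} : Set (Coeff n δ → ℤ)).ncard : ℝ) ≤ (box N L).card := by
      rw [← Set.ncard_coe_finset]
      exact Nat.cast_le.2 (Set.ncard_le_ncard (fun t ht => ht.1) (Finset.finite_toSet _))
    rw [card_box] at h1
    refine h1.trans (le_mul_of_one_le_left hP ?_)
    have h2 : (X₀ : ℝ) ^ (-1 : ℝ) ≤ (X₀ : ℝ) ^ (-(1 / 8) : ℝ) := Real.rpow_le_rpow_of_exponent_le hX1 (by norm_num)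
    have h3 : (X₀ : ℝ) ≤ ((Y₁ + Y₂ + 1 : ℕ) : ℝ) := by exact_mod_cast hlt.le
    have h4 : 1 ≤ ((Y₁ + Y₂ + 1 : ℕ) : ℝ) * (X₀ : ℝ) ^ (-1 : ℝ) := by
      rw [Real.rpow_neg_one, ← div_eq_mul_inv, le_div_iff₀ (by linarith), one_mul]
      exact h3
    have h5 : 0 ≤ (X₀ : ℝ) ^ (-(1 / 8) : ℝ) := by positivity
    have h6 : ((Y₁ + Y₂ + 1 : ℕ) : ℝ) * (X₀ : ℝ) ^ (-1 : ℝ) ≤ ((Y₁ + Y₂ + 1 : ℕ) : ℝ) * (X₀ : ℝ) ^ (-(1 / 8) : ℝ) :=
      mul_le_mul_of_nonneg_left h2 (Nat.cast_nonneg _)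
    have h7 : 0 ≤ C * (X₀ : ℝ) ^ (-(1 / 8) : ℝ) := by positivity
    rw [add_mul]
    linarith
  · have h1 := h {Set.univ} N L T hT hTL X₀ hX₀
    have h2 : ({t ∈ box N L | ¬ ∀ Y : ℕ, X₀ ≤ Y → (Y : ℝ) ≤ T ^ κ₀ →
        |(Y : ℝ)⁻¹ * tateSum n m δ k t Set.univ Y - rank n m k| ≤ η} : Set (Coeff n δ → ℤ)) ⊆
        ({t ∈ box N L | ¬ ∀ S ∈ ({Set.univ} : Finset (Set ℕ)), ∀ Y : ℕ, X₀ ≤ Y → (Y : ℝ) ≤ T ^ κ₀ →
        |tateSum n m δ k t S Y - mainSum n m k S Y| ≤ C * (Y : ℝ) ^ (1 / 2 + 1 / 4 : ℝ)} : Set (Coeff n δ → ℤ)) := by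
      rintro t ⟨ht, hnt⟩
      refine ⟨ht, fun hall => hnt fun Y hY hYT => ?_⟩
      have h3 := hall Set.univ (mem_singleton_self _) Y hY hYT
      have h4 := hY₁ Y (by omega)
      rw [Real.dist_eq] at h4
      have hY0 : (0 : ℝ) < Y := by exact_mod_cast (by omega : 0 < Y)
      have h5 : |(Y : ℝ)⁻¹ * tateSum n m δ k t Set.univ Y - (Y : ℝ)⁻¹ * mainSum n m k Set.univ Y| ≤ η / 2 := by
        rw [← mul_sub, abs_mul, abs_of_pos (inv_pos.2 hY0)]
        refine (mul_le_mul_of_nonneg_left h3 (by positivity)).trans ?_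
        have e1 : (Y : ℝ)⁻¹ * (C * (Y : ℝ) ^ (1 / 2 + 1 / 4 : ℝ)) = C * (Y : ℝ) ^ (-(1 / 4) : ℝ) := by
          have e2 : (Y : ℝ) ^ (-(1 / 4) : ℝ) = (Y : ℝ)⁻¹ * (Y : ℝ) ^ (1 / 2 + 1 / 4 : ℝ) := by
            rw [← Real.rpow_neg_one, ← Real.rpow_add hY0]
            norm_num
          rw [e2]
          ring
        rw [e1, Real.rpow_neg hY0.le]
        have e3 : 2 * C / η ≤ (Y : ℝ) ^ (1 / 4 : ℝ) := by
          have e4 : (2 * C / η) ^ (4 : ℕ) ≤ Y := hY₂.trans (by exact_mod_cast (by omega : Y₂ ≤ Y))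
          have e5 : ((2 * C / η) ^ (4 : ℕ)) ^ (1 / 4 : ℝ) = 2 * C / η := by
            rw [← Real.rpow_natCast, ← Real.rpow_mul (by positivity)]
            norm_num
          rw [← e5]
          exact Real.rpow_le_rpow (by positivity) e4 (by norm_num)
        have e6 : 0 < (Y : ℝ) ^ (1 / 4 : ℝ) := by positivity
        rw [← div_eq_mul_inv, div_le_iff₀ e6]
        rw [div_le_iff₀ hη] at e3
        linarith
      have h6 := abs_sub_le ((Y : ℝ)⁻¹ * tateSum n m δ k t Set.univ Y) ((Y : ℝ)⁻¹ * mainSum n m k Set.univ Y) (rank n m k : ℝ)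
      linarith
    have h3 := Nat.cast_le (α := ℝ).2 (Set.ncard_le_ncard h2 ((Finset.finite_toSet (box N L)).subset fun t ht => ht.1))
    refine h3.trans (h1.trans ?_)
    rw [card_singleton, Nat.cast_one, mul_one]
    have e1 : -((1 / 4 : ℝ) / 2) = -(1 / 8) := by norm_num
    rw [e1]
    refine mul_le_mul_of_nonneg_right (mul_le_mul_of_nonneg_right ?_ (by positivity)) hP
    have : (0 : ℝ) ≤ ((Y₁ + Y₂ + 1 : ℕ) : ℝ) := Nat.cast_nonneg _
    linarith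

end

/-- **The Tauberian averages of products of powers of almost all cyclic covers of projective spaces.** -/
theorem result {r : ℕ} (n m δ k : Fin r → ℕ) (hn : ∀ i, 1 ≤ n i) (hm : ∀ i, 2 ≤ m i) (hδ : ∀ i, 3 ≤ δ i) (_ : ∀ i, m i ∣ δ i) :
    -- (1) the averages are close to the rank
    (∀ η : ℝ, 0 < η → ∃ κ₀ : ℝ, 0 < κ₀ ∧ ∃ C : ℝ, 1 ≤ C ∧ ∀ (N : Coeff n δ → ℤ) (L : Coeff n δ → ℕ) (T : ℝ), 0 < T → (∀ x, T ≤ L x) →
      ∀ X₀ : ℕ, 1 ≤ X₀ →
      (({t ∈ box N L | ¬ ∀ Y : ℕ, X₀ ≤ Y → (Y : ℝ) ≤ T ^ κ₀ →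
        |(Y : ℝ)⁻¹ * tateSum n m δ k t Set.univ Y - rank n m k| ≤ η} : Set (Coeff n δ → ℤ)).ncard : ℝ) ≤
        C * (X₀ : ℝ) ^ (-(1 / 8) : ℝ) * ∏ x, (L x : ℝ)) ∧
    -- (2) with a power saving, for all sets of primes in a finite system
    (∀ ε : ℝ, 0 < ε → ε ≤ 1 → ∃ κ₀ : ℝ, 0 < κ₀ ∧ ∃ C : ℝ, 1 ≤ C ∧ ∀ (𝒮 : Finset (Set ℕ)) (N : Coeff n δ → ℤ) (L : Coeff n δ → ℕ) (T : ℝ),
      0 < T → (∀ x, T ≤ L x) → ∀ X₀ : ℕ, 1 ≤ X₀ →
      (({t ∈ box N L | ¬ ∀ S ∈ 𝒮, ∀ Y : ℕ, X₀ ≤ Y → (Y : ℝ) ≤ T ^ κ₀ →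
        |tateSum n m δ k t S Y - mainSum n m k S Y| ≤ C * (Y : ℝ) ^ (1 / 2 + ε)} : Set (Coeff n δ → ℤ)).ncard : ℝ) ≤
        C * 𝒮.card * (X₀ : ℝ) ^ (-(ε / 2)) * ∏ x, (L x : ℝ)) ∧
    -- (3) the mean of the main term
    Tendsto (fun Y : ℕ => (Y : ℝ)⁻¹ * mainSum n m k Set.univ Y) atTop (𝓝 (rank n m k : ℝ)) :=
  ⟨fun η hη => averages n m δ k hn hm hδ η hη, fun ε hε hε1 => law n m δ k hn hm hδ ε hε hε1, mean n m k hm⟩

end Pool.Agent.Results.MP_4589ac_nt.ProductsOfCyclicCovers
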