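import Pool.Agent.H48PC.Main

/-!
# The Tauberian averages of the products of arbitrary varieties with the powers of almost all hyperelliptic curves

`K` is a number field, `ω_0, ..., ω_(g-1)` are elements of `𝓞_K` such that `1` is in the group generated
by them (for instance an integral basis), `n ≥ 3` is odd, and the vector `c` of the integers `c_(i,j)`,
`i < n`, `j < g`, gives the monic polynomial `f_c = x ^ n + ∑_(i < n) (∑_j c_(i,j) ω_j) x ^ i` over `𝓞_K`, and
the smooth projective curve `C_c : y ^ 2 = f_c(x)` over `K`, of genus `(n - 1) / 2` (`n = 3`: elliptic curves; all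
elliptic curves over `K` have such equations).

Let `X` be a smooth projective variety over `K`.  By the formula of Künneth `H^2(X × C_c ^ m)` is the sum of
`H^2(X)`, of `m` copies of `H^1(X) ⊗ H^1(C_c)`, of `m` copies of `H^2(C_c)` and of `m (m - 1) / 2` copies of
`H^1(C_c) ⊗ H^1(C_c)`.  The rank of `NS(X × C_c ^ m)` is the sum of the rank of `NS(X)`, of `m`, of `m` times the rank
of `Hom(Alb X, J_c)` and of `m (m - 1) / 2` times the rank of `End(J_c)`, `J_c` the Jacobian of `C_c`.  If
`n ≥ 5` and the Galois group of `f_c` is the symmetric group, then `End(J_c) = ℤ` by a theorem of Zarhin.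

The theorem: for almost all `c` the Galois group of `f_c` is the symmetric group, and for all `T` up to a
power of the size of `c`, for all varieties `X` of a given sequence and for all `m` the average of the question
for `X × C_c ^ m` is the sum of the average for `X` and of `m (m + 1) / 2` times the average for the projective
line, up to the error `(N₂ + m N₁ + m ^ 2) T ^ (-1/2 + δ)`, where `N₁` and `N₂` are the Betti numbers of `X`.

The definitions are in `Pool.Agent.H48PC.Defs`, `Pool.Agent.H40SY.WDefs` (`TraceData`), `Pool.Agent.H40SY.Defs`
(`poly`, `IsSymmetric`, `WellDistributed`), `Pool.Agent.W353.SP.NDefs` (`average`) and `Pool.Agent.W353.EF.Defs`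
(`IsFrobenius`).

Method: high moments of local functions over the family (`Pool.Agent.N647.TS`, helper647, in the form of
`Pool.Agent.H40SY`), applied to the normalised trace of the curve, to its square and to the indicator function of
the primes of bad reduction; the first two moments of the character sums of random monic polynomials
(`Pool.Agent.Y57.FD.Mom`); the bound of Weil (`Pool.Agent.H341R2.WeilSharp`).
-/

set_option autoImplicit false

namespace Pool.Agent.Results.MP_4589ac_nt.ProductsWithCurves

open NumberField Pool.Agent.H40SY Pool.Agent.H48PC

open Classical in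
/-- **The Tauberian averages of products with powers of curves.**  Let `n ≥ 3` be odd.  For all `δ > 0`, `A`,
`B` there are `E` and `y₀` such that for all sequences `V` of varieties over `K`, all `Q`, all `y ≥ y₀` and all
finite sets `S` of vectors which are well distributed modulo the numbers `q ≤ Q` (for instance boxes with side at
least `2 n g Q ^ 2`, see `SymmetricExtensions`) the following holds for all `c` in `S` with at most
`|S| / y ^ A` exceptions: if `y ^ E ≤ Q`, then the Galois group of the polynomial `f_c` is the symmetric
group, and for all `T ≥ y` with `T ^ E ≤ Q`, all `j < T ^ B` and all `m` the average up to `T` for the product of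
`V j` and of `m` copies of the curve `y ^ 2 = f_c(x)` is the average for `V j` plus `m (m + 1) / 2` times the average
for the projective line, up to `(N₂ + m N₁ + m ^ 2) T ^ (-1/2 + δ)`. -/
theorem result (K : Type) [Field K] [NumberField K] (n g : ℕ) (hn : Odd n) (hn3 : 3 ≤ n) (ω : Fin g → 𝓞 K)
    (hω : (1 : 𝓞 K) ∈ Submodule.span ℤ (Set.range ω)) (δ : ℝ) (hδ : 0 < δ) (A B : ℕ) :
    ∃ E y₀ : ℕ, ∀ (V : ℕ → TraceData K) (Q y : ℕ), y₀ ≤ y →
      ∀ S : Finset (Fin n → Fin g → ℤ), WellDistributed Q S →
        ((S.filter fun c => ¬ ProductLaw ω δ B V E Q y c).card : ℝ) ≤ 1 / (y : ℝ) ^ A * S.card :=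
  product_main hn hn3 ω hω δ hδ A B

end Pool.Agent.Results.MP_4589ac_nt.ProductsWithCurves
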