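import Pool.Agent.H40SY.Main

/-!
# The Tauberian averages over all fields inside the splitting fields of almost all polynomials

`K` is a number field, `ω_0, ..., ω_(g-1)` are elements of `𝓞_K` such that `1` is in the group generated
by them (for instance an integral basis), and the vector `c` of the integers `c_(i,j)`, `i < n`, `j < g`,
gives the monic polynomial `f_c = x ^ n + ∑_(i < n) (∑_j c_(i,j) ω_j) x ^ i` over `𝓞_K`.

`V_0, V_1, ...` is any sequence of projective varieties over `K`, with the traces of the geometric
Frobenius on `H^(2m)` (divisors: `m = 1`).  For a field `M ⊇ K` the question says that the averages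
`T⁻¹ ∑_(q_w ≤ T) b_w log(q_w) / q_w ^ m` over the primes `w` of `M` tend to the rank of the group of the
classes of the divisors of `V_j` defined over `M`.

The theorem: if `S` is any finite set of vectors `c` which is well distributed modulo the numbers `q ≤ Q`,
for instance a box with side at least `2 n g Q ^ 2`, then for all `c` in `S` with at most `|S| / y ^ A`
exceptions the Galois group of `f_c` over `K` is the symmetric group `S_n`, and for all `T ≥ y` with
`T ^ E ≤ Q`, for the first `T ^ B` of the varieties, and for *all* fields `M` between `K` and the splitting
field of `f_c` the average up to `T` over `M` is the average up to `T` over `K`, up to the error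
`N T ^ (-1/2 + δ)`, where `N` is the Betti number.

The definitions are in `Pool.Agent.H40SY.Defs`, `Pool.Agent.W353.SP.NDefs` (`IsTrace`, `average`) and
`Pool.Agent.W353.EF.Defs` (`IsFrobenius`).

Method: high moments of local functions over the family (`Pool.Agent.N647.TS`, helper647, and
`Pool.Agent.N842.HS`), applied to the numbers of the factorizations modulo `v` of `f_c` into factors of
given degrees, for all types of factorizations, whose mean values are `1`.  For a prime `v` of degree one
modulo which `f_c` is separable these are the values of the permutation characters of Young subgroups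
at the Frobenius element.  They span the class functions on `S_n`, so that the number of the primes of
degree one of `M` above `v` is a combination of them, with mean value `1`; and all conjugacy classes of
`S_n` occur as Frobenius elements, so that the group is `S_n` by the theorem of Jordan.
-/

set_option autoImplicit false

namespace Pool.Agent.Results.MP_4589ac_nt.SymmetricExtensions

open NumberField Pool.Agent.H40SY

open Classical in
/-- **The Tauberian averages over the fields inside the splitting fields of almost all polynomials.**
(1) For all `δ > 0`, `A`, `B` there are `E` and `y₀` such that for all sequences `V` of varieties over `K`,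
all `Q`, all `y ≥ y₀` and all well distributed sets `S` of vectors the following holds for all `c` in `S` with
at most `|S| / y ^ A` exceptions: if `y ^ E ≤ Q`, then the Galois group of the polynomial `f_c` is the
symmetric group, and for all `T ≥ y` with `T ^ E ≤ Q`, all `j < T ^ B` and all fields `M` between `K` and the
splitting field of `f_c` the averages up to `T` for `V j` over `M` and over `K` differ by at most
`N T ^ (-1/2 + δ)`.
(2) Boxes with side at least `2 n g Q ^ 2` are well distributed. -/
theorem result (K : Type) [Field K] [NumberField K] (n g : ℕ) (ω : Fin g → 𝓞 K)
    (hω : (1 : 𝓞 K) ∈ Submodule.span ℤ (Set.range ω)) :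
    (∀ δ : ℝ, 0 < δ → ∀ A B : ℕ, ∃ E y₀ : ℕ, ∀ (V : ℕ → VarietyData K) (Q y : ℕ), y₀ ≤ y →
      ∀ S : Finset (Fin n → Fin g → ℤ), WellDistributed Q S →
        ((S.filter fun c => ¬ Invariant ω δ B V E Q y c).card : ℝ) ≤ 1 / (y : ℝ) ^ A * S.card) ∧
    (∀ (Q L : ℕ) (a : Fin n → Fin g → ℤ), 1 ≤ L → 2 * (n * g) * Q ^ 2 ≤ L →
      WellDistributed Q (box a L)) :=
  ⟨fun δ hδ A B => main ω hω δ hδ A B, fun Q L a h1 h2 => wd_box Q L a h1 h2⟩

end Pool.Agent.Results.MP_4589ac_nt.SymmetricExtensions
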